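import Pool.Agent.Lib.DM.E.BC
import Pool.Agent.Lib.DM.Iface

/-!
# Theorem DM, part B: `aB1`, `aB2`, `aB3`, `aB7`, `aB9`, `aB11` of `DM/Iface.lean`, without hypotheses (author helper28)
-/

set_option autoImplicit false

open scoped Pointwise Topology nonZeroDivisors
open Filter

noncomputable section

namespace Pool.Agent.DM

open Pool.Agent.MuZ Pool.Agent.FW NumberField IsDedekindDomain
open Pool.Agent.DI (io ofC io_inj exists_io io_ofC ofC_io VP MP UP TP ex)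
open Pool.Agent.DN

theorem aB1 : S_B1 := by
  intro n t _ b hb h2
  have B := tBC hb h2
  have q : (3 / 4 : ℂ) = -(1 / 4) + 1 := by norm_num
  refine ⟨B.fr0, B.c0, fun h => B.dsc (by linear_combination -h), B.x2, B.x4, B.w4, ?_, ?_,
    fun z => ?_, B.wd, ?_, ?_⟩
  · rw [q, (B.per _ _ B.l1).1, (B.neg _).1, B.x4]
  · rw [q, (B.per _ _ B.l1).2, (B.neg _).2, B.w4]
  · linear_combination B.wp z + (1 / 12 : ℂ) * B.e2
  · linear_combination (1 / 12 : ℂ) * B.g2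
  · linear_combination (1 / 216 : ℂ) * B.g3

theorem aB2 : S_B2 := fun _ _ _ _ hb h2 z hz =>
  ⟨(tBC hb h2).crv z hz, (tBC hb h2).drx z hz, (tBC hb h2).drw z hz⟩

theorem aB3 : S_B3 := fun _ _ _ _ hb h2 =>
  ⟨fun z z' h1 h2' h3 h4 => ⟨(tBC hb h2).kad z z' h1 h2' h3 h4, (tBC hb h2).kml z z' h1 h2' h3 h4,
    (tBC hb h2).ksb z z' h1 h2' h3 h4⟩, fun z hz => (tBC hb h2).dup z hz,
    fun z hz hz' => (tBC hb h2).th z hz hz'⟩

theorem aB7 : S_B7 := by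
  intro n t _ b hb h2
  obtain ⟨-, -, g1, g3, ⟨g4, g5, g6⟩, -⟩ := aBC n t b hb h2
  refine ⟨g1, fun α hα h4 => homN hb h2 hα h4, fun α hα hc z => ?_, g4, g5, g6⟩
  rw [(g3 α hα hc z).1]
  ring

theorem aB9 : S_B9 := by
  intro n t _ a b ha hb ha2 h2 R hR
  obtain ⟨-, g1, -⟩ := aBC n t b hb h2
  obtain ⟨g2, g3⟩ := g1 a ha ha2 R hR
  have B := tBC (Eb.ne_mul ha hb) (Eb.pri_mul ha2 h2)
  refine ⟨fun z hz => ?_, g3⟩
  have h := g2 z (1 / 2) hz B.half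
  rw [B.x2, sub_zero] at h
  exact h

theorem aB11 : S_B11 := by
  intro n t _ m b hm hb hm2 h2 z hz
  exact ggG hm hb h2 hm2 z hz

end Pool.Agent.DM
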